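import Pool.Agent.Lib.MP_524519_ag.DU5.AB.Iface

/-! # DU5/AB, module AID (helper45) -/

set_option autoImplicit false

namespace Pool.Agent.DU5.AB.H45

open MvPowerSeries Pool.Agent.DU5 Pool.Agent.DU5.AB

theorem aid (hPB : PBStatement) (hPX : PXStatement) : AIDStatement := by
  intro p hp k _ _ _ J h1 h2
  obtain ⟨pb1, pb2, pb3, -⟩ := hPB p k
  have hp0 : 0 < p := hp.out.pos
  let P : O k 3 → Prop := fun G => ∀ a, pc p a G ∈ J a
  have hz : P 0 := by
    intro a
    have h := pb1 a 0 0
    rw [add_zero] at h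
    have h' : pc p a (0 : O k 3) = 0 := by
      have := congrArg (fun t => t - pc p a (0 : O k 3)) h
      simpa using this.symm
    rw [h']
    exact (J a).zero_mem
  have hadd : ∀ G H, P G → P H → P (G + H) := by
    intro G H hG hH a
    rw [pb1]
    exact (J a).add_mem (hG a) (hH a)
  have hpow : ∀ g G, P G → P (g ^ p * G) := by
    intro g G hG a
    rw [pb2]
    exact (J a).mul_mem_left _ (hG a)
  have hX : ∀ i G, P G → P (X i * G) := by
    intro i G hG a
    obtain ⟨x1, x2, -, -⟩ := hPX p k G a i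
    rcases Nat.eq_zero_or_pos (a i : ℕ) with h0 | h0
    · have hb : ((⟨p - 1, by omega⟩ : Fin p) : ℕ) + 1 = p := by
        show p - 1 + 1 = p
        omega
      rw [x2 ⟨p - 1, by omega⟩ h0 hb]
      exact h2 a i _ h0 hb _ (hG _)
    · have hlt : (a i : ℕ) < p := (a i).2
      have hb : ((⟨(a i : ℕ) - 1, by omega⟩ : Fin p) : ℕ) + 1 = a i := by
        show (a i : ℕ) - 1 + 1 = a i
        omega
      rw [x1 ⟨(a i : ℕ) - 1, by omega⟩ hb]
      exact h1 a i _ hb (hG _)
  let S : Submonoid (O k 3) :=
    { carrier := {c | ∀ G, P G → P (c * G)}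
      one_mem' := by
        intro G hG
        rw [one_mul]; exact hG
      mul_mem' := by
        intro c d hc hd G hG
        rw [mul_assoc]
        exact hc _ (hd _ hG) }
  have hXS : ∀ i, (X i : O k 3) ∈ S := fun i G hG => hX i G hG
  have hmn : ∀ b : Fin 3 → Fin p, (mn b : O k 3) ∈ S := by
    intro b
    unfold mn
    exact Submonoid.prod_mem S fun j _ => Submonoid.pow_mem S (hXS j) _
  have hsum : ∀ (s : Finset (Fin 3 → Fin p)) (F : (Fin 3 → Fin p) → O k 3),
      (∀ b ∈ s, P (F b)) → P (∑ b ∈ s, F b) := by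
    classical
    intro s F
    induction s using Finset.induction_on with
    | empty => intro _; rw [Finset.sum_empty]; exact hz
    | insert b s hb ih =>
      intro h
      rw [Finset.sum_insert hb]
      exact hadd _ _ (h b (Finset.mem_insert_self b s))
        (ih fun c hc => h c (Finset.mem_insert_of_mem hc))
  refine ⟨{ carrier := {G | P G}, add_mem' := fun {G H} hG hH => hadd G H hG hH,
            zero_mem' := hz, smul_mem' := ?_ }, fun G => Iff.rfl⟩
  intro c G hG
  show P (c • G)
  rw [smul_eq_mul]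
  have e : c * G = ∑ b : Fin 3 → Fin p, pc p b c ^ p * (mn b * G) := by
    conv_lhs => rw [pb3 c]
    rw [Finset.sum_mul]
    exact Finset.sum_congr rfl fun b _ => mul_assoc _ _ _
  rw [e]
  exact hsum _ _ fun b _ => hpow _ _ (hmn b G hG)

end Pool.Agent.DU5.AB.H45
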